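import Pool.Agent.W_448st0_h96.SzD

/-!
MP_448cb3_co, G2, step 0 at the level 13: THE TWO IDENTITIES and the bound of a part.  helper16.

`j = i + 1`.  `S1 t = Ut i t + G0 i K Y t` (weights `Wst`) has total at most zero and
`S2 t = 2 * TT (i + 1) t + Ge i K Y V t` has total zero.  Every part gets `5 * S1 + 4 * S2`.
-/

namespace Pool.Agent.GaussPoset.EK

set_option linter.unusedSectionVars false

open Finset Win St Polynomial Wd Win.W4

universe u

section defs

variable {P : Type u} [Fintype P] [PartialOrder P] [DecidableEq P]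

/-- the value of a part for the two identities -/
noncomputable def S5 (i : ℕ) (K : Finset P) (Y V : P → P) (t : Tops P) : ℤ :=
  5 * (Ut i t + G0 i K Y t) + 4 * (2 * TT (i + 1) t + Ge i K Y V t)

/-- the lower bound without the joins -/
noncomputable def R5 (i : ℕ) (K : Finset P) (Y V : P → P) (t : Tops P) : ℤ :=
  5 * Ut i t + 8 * TT (i + 1) t - 16 * (PA (i + 1) K Y V t + PC (i + 1) K Y V t)

/-- the bound of the leaves -/
def Q5 (i : ℕ) (K : Finset P) (Y V : P → P) (t : Tops P) : Prop :=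
  0 ≤ R5 i K Y V t ∨ (-56 ≤ R5 i K Y V t ∧ LightJ i K t)

end defs

variable {P : Type u} [Fintype P] [PartialOrder P] [DecidableEq P] {r i j : ℕ}

variable {m : ℕ} {x : ℕ → P} {c : ℕ → ℤ} {β : ℤ} {t : Tops P}

variable {K : Finset P} {psi : P → P} {Y V : P → P}

section main

variable (h : NJ P r (i + 1)) (hi1 : 1 ≤ i) (R : Red P (i + 1) K psi) (hY : YW (i + 1) Y V)

include h hi1 R hY

/-- the first identity: the total is at most zero -/
theorem NJ.sum_first (t0 : Tops P) : ∑ t : Tops P, (Ut i t + G0 i K Y t) ≤ 0 := by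
  classical
  have h1 := Pn.nj_total h rfl hi1 (NJ.lv_pos h hi1 t0) R Wst
  have h2 := Pn.sum_Lm (i := i) (j := i + 1) Wst (g0 i K Y)
  have h3 : ∑ z ∈ K2.Z2 (i + 1) (topOf : P → Tops P), ∑ y ∈ uc z, g0 i K Y z y =
      ∑ z ∈ K2.Z2 (i + 1) (topOf : P → Tops P), Pn.cst Wst i (i + 1) K z :=
    Finset.sum_congr rfl fun z hz => hY.sum_g0 hz
  have h4 : ∑ t : Tops P, Pn.Lm Wst (g0 i K Y) i (i + 1) t =
      ∑ t : Tops P, (Ut i t + G0 i K Y t) := Finset.sum_congr rfl fun t _ => Lm_g0 t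
  have h5 : ∑ z ∈ Pn.mx (P := P) i, Pn.Wn i (topOf : P → Tops P) 3 z ≤ 0 :=
    Finset.sum_nonpos fun z hz => Pn.nj_mixed8 h rfl hi1 hz
  have h6 : (0 : ℤ) ≤ Wst.a8 := by
    unfold Wst
    norm_num
  have h7 := mul_nonpos_of_nonneg_of_nonpos h6 h5
  rw [h3] at h2
  rw [← h4, h2]
  linarith

/-- the second identity: the total is zero -/
theorem NJ.sum_second : ∑ t : Tops P, (2 * TT (i + 1) t + Ge i K Y V t) = 0 := by
  classical
  have h1 := NJ.total h (by omega) R
  rw [Pn.nj_image h] at h1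
  have h2 : ∑ t : Tops P, Ge i K Y V t =
      ∑ z ∈ K2.Z2 (i + 1) (topOf : P → Tops P), ∑ q ∈ uc z, ge i K Y V z q :=
    Pn.sum_Xt (K2.Z2 (i + 1) (topOf : P → Tops P)) (ge i K Y V)
  have h3 : ∑ z ∈ K2.Z2 (i + 1) (topOf : P → Tops P), ∑ q ∈ uc z, ge i K Y V z q =
      2 * ∑ z ∈ K2.Z2 (i + 1) (topOf : P → Tops P), JW (i + 1) K z := by
    rw [mul_sum]
    refine Finset.sum_congr rfl fun z hz => ?_
    rw [hY.sum_ge hz]
    exact cste_val
  rw [sum_add_distrib, ← mul_sum, h2, h3]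
  linarith

/-- THE TOTAL of the two identities -/
theorem NJ.sum_S5 (t0 : Tops P) : ∑ t : Tops P, S5 i K Y V t ≤ 0 := by
  have h1 := NJ.sum_first h hi1 R hY t0
  have h2 := NJ.sum_second h hi1 R hY
  have h3 : ∑ t : Tops P, S5 i K Y V t = 5 * ∑ t : Tops P, (Ut i t + G0 i K Y t) +
      4 * ∑ t : Tops P, (2 * TT (i + 1) t + Ge i K Y V t) := by
    rw [mul_sum, mul_sum, ← sum_add_distrib]
    rfl
  rw [h3, h2]
  linarith

/-- THE END: if every part is nonnegative then every part is zero -/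
theorem NJ.S5_zero (hpos : ∀ t : Tops P, 0 ≤ S5 i K Y V t) (t : Tops P) : S5 i K Y V t = 0 := by
  have h1 := NJ.sum_S5 h hi1 R hY t
  have h2 := Finset.sum_nonneg (fun (t : Tops P) (_ : t ∈ (univ : Finset (Tops P))) => hpos t)
  exact (Finset.sum_eq_zero_iff_of_nonneg (fun t _ => hpos t)).1 (le_antisymm h1 h2) t (mem_univ t)

/-- the joins only help -/
theorem NJ.S5_ge (t : Tops P) : R5 i K Y V t ≤ S5 i K Y V t := by
  have h1 := NJ.G0_nonneg h hi1 R hY t
  have h2 := (NJ.Ge_ge h hi1 R hY t).1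
  unfold R5 S5
  linarith

/-- a light join is not bad -/
theorem NJ.light_good (hl : LightJ i K t) : GoodJ (i + 1) t := by
  obtain ⟨z, y, v, S, ht, ha, -⟩ := hl
  refine ⟨z, y, v, S, ht, fun hb => ?_⟩
  have := sa_badR h R hb
  omega

/-- the gain of a light join -/
theorem NJ.S5_light (hl : LightJ i K t) : R5 i K Y V t + 56 ≤ S5 i K Y V t := by
  have h1 := NJ.G0_light h hi1 R hY hl
  have h2 := (NJ.Ge_ge h hi1 R hY t).2 (NJ.light_good h hi1 R hY hl)
  unfold R5 S5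
  linarith

/-- the value of a part -/
theorem NJ.Q5_nonneg (hQ : Q5 i K Y V t) : 0 ≤ S5 i K Y V t := by
  rcases hQ with h1 | ⟨h1, h2⟩
  · exact h1.trans (NJ.S5_ge h hi1 R hY t)
  · have := NJ.S5_light h hi1 R hY h2
    linarith

/-- a small part which pays nothing -/
theorem NJ.Q5_of_Q0 (h6 : ∀ (m : ℕ) (x : ℕ → P) (c : ℕ → ℤ) (β : ℤ),
    RowB P (i + 1) t m x c β → ¬ Pat6 m c β) (hQ : Q0 i K t)
    (hp : 2 * (PA (i + 1) K Y V t + PC (i + 1) K Y V t) ≤ TT (i + 1) t) : Q5 i K Y V t := by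
  obtain ⟨m, x, c, β, B⟩ := NJ.rowB h (show 2 ≤ i + 1 by omega) t
  have hs : Small (i + 1) (topOf : P → Tops P) t :=
    (B.small h.g.H h.split).resolve_right (h6 m x c β B)
  unfold Q5 R5
  rw [NJ.Ut_small h hi1 R hs]
  rcases hQ with h1 | ⟨h1, h2⟩
  · left
    linarith
  · right
    exact ⟨by linarith, h2⟩

end main

end Pool.Agent.GaussPoset.EK
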