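import Pool.Agent.W_448n13_h16.NtA

/-!
MP_448cb3_co, G2, step 0 at the level 13: THE LEAVES AND THE END.  helper16.
-/

namespace Pool.Agent.GaussPoset.EK

set_option linter.unusedSectionVars false

open Finset Win St Polynomial Wd Win.W4

universe u

section defs

variable (P : Type u) [Fintype P] [PartialOrder P] [DecidableEq P]

/-- INPUT of the level 13: naturals -/
def HNatT : Prop :=
  ∀ (r i : ℕ) (t : Tops P) (m : ℕ) (x : ℕ → P) (c : ℕ → ℤ) (β : ℤ), i + 1 = 13 →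
    CB P r (i + 1) → RowB P (i + 1) t m x c β → β = 0 → (∀ k, k < m → c k = 0) →
    0 ≤ TT (i + 1) t

/-- INPUT of the level 13: [DL], at least four sites, the doubled end closed -/
def HClosedT : Prop :=
  ∀ (r i : ℕ) (K : Finset P) (psi : P → P) (t : Tops P) (m : ℕ) (x : ℕ → P) (c : ℕ → ℤ) (β : ℤ)
    (lo hi : ℕ → ℕ) (e : ℕ → ℕ → P), i + 1 = 13 → CB P r (i + 1) →
    Red P (i + 1) K psi → RowB P (i + 1) t m x c β → Cp.Comp (i + 1) (t : P) lo hi e →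
    Shape (i + 1) lo hi → 3 ≤ m → IsDL m c β → (uc (x 0)).card = 2 →
    0 ≤ 5 * Ut i t + 8 * TT (i + 1) t ∨
      (-56 ≤ 5 * Ut i t + 8 * TT (i + 1) t ∧ LightJ i K t)

/-- INPUT of the level 13: [DL], four sites, both ends single (the late words ending with OO) -/
def HOpen3T : Prop :=
  ∀ (r i : ℕ) (t : Tops P) (x : ℕ → P) (c : ℕ → ℤ) (β : ℤ)
    (lo hi : ℕ → ℕ) (e : ℕ → ℕ → P) (a : ℕ), i + 1 = 13 → CB P r (i + 1) →
    RowB P (i + 1) t 3 x c β → Cp.Comp (i + 1) (t : P) lo hi e →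
    Shape (i + 1) lo hi → LateC (i + 1) a lo hi → IsDL 3 c β → (uc (x 0)).card = 1 →
    (uc (x 3)).card = 1 → UE (i + 1) (cext (i + 1 + 1) (topOf : P → Tops P) t) x 2 = ∅ →
    (∀ k, k ≤ 3 → x k = e (i + 1) (lo (i + 1) + k)) → 0 ≤ TT (i + 1) t

/-- INPUT of the level 13: the rotated rows with four sites -/
def HRing3T : Prop :=
  ∀ (r i : ℕ) (t : Tops P) (x : ℕ → P) (c : ℕ → ℤ)
    (β : ℤ) (lo hi : ℕ → ℕ) (e : ℕ → ℕ → P) (a : ℕ), i + 1 = 13 → CB P r (i + 1) →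
    RowB P (i + 1) t 3 x c β →
    Cp.Comp (i + 1) (t : P) lo hi e → Shape (i + 1) lo hi → LateC (i + 1) a lo hi →
    β = 1 → c 0 = -1 → (∀ k, 1 ≤ k → k < 3 → c k = 0) → (uc (x 0)).card = 1 →
    (uc (x 3)).card = 1 → pen (x 0) ≠ ∅ → (∀ k, k ≤ 3 → x k = e (i + 1) (hi (i + 1) - k)) →
    4 ≤ Vt i t ∧ 2 ≤ TT (i + 1) t

/-- INPUT of the level 13: three sites with a defect -/
def HTwoT : Prop :=
  ∀ (r i : ℕ) (K : Finset P) (psi : P → P) (Y V : P → P) (t : Tops P) (x : ℕ → P) (c : ℕ → ℤ)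
    (β : ℤ), i + 1 = 13 → CB P r (i + 1) → Red P (i + 1) K psi → YW (i + 1) Y V →
    RowB P (i + 1) t 2 x c β → ¬ (β = 0 ∧ ∀ k, k < 2 → c k = 0) →
    2 * (PA (i + 1) K Y V t + PC (i + 1) K Y V t) ≤ TT (i + 1) t

/-- INPUT of the level 13: two stars -/
def HSixT : Prop :=
  ∀ (r i : ℕ) (K : Finset P) (psi : P → P) (Y V : P → P) (t : Tops P) (m : ℕ) (x : ℕ → P)
    (c : ℕ → ℤ) (β : ℤ) (lo hi : Tops P → ℕ → ℕ) (e : Tops P → ℕ → ℕ → P), i + 1 = 13 → HCCu P →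
    HTail P → CB P r (i + 1) → Red P (i + 1) K psi → YW (i + 1) Y V →
    (∀ t : Tops P, Cp.Comp (i + 1) (t : P) (lo t) (hi t) (e t)) →
    (∀ t : Tops P, Shape (i + 1) (lo t) (hi t)) → RowB P (i + 1) t m x c β → Pat6 m c β →
    0 < R5 i K Y V t ∨ (0 ≤ R5 i K Y V t ∧ v3 (i + 1) t ≠ 0) ∨
      (-40 < R5 i K Y V t ∧ LightJ i K t)

/-- THE INPUTS OF THE LEVEL 13 -/
structure Leaves13 : Prop where
  nat : HNatT P
  closed : HClosedT P
  open3 : HOpen3T P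
  ring3 : HRing3T P
  two : HTwoT P
  six : HSixT P

end defs

variable {P : Type u} [Fintype P] [PartialOrder P] [DecidableEq P] {r i j : ℕ}

variable {m : ℕ} {x : ℕ → P} {c : ℕ → ℤ} {β : ℤ} {t : Tops P}

variable {K : Finset P} {psi : P → P} {Y V : P → P}

section main

variable (hL : Leaves0 P) (hM : Leaves13 P) (h : CB P r (i + 1)) (h13 : i + 1 = 13)
  (R : Red P (i + 1) K psi) (hY : YW (i + 1) Y V)

include hL hM h h13 R hY

/-- A ROTATED ROW has a positive value -/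
theorem CB.ring5_pos (hC : HCCu P) (hT : HTail P) {lo hi : Tops P → ℕ → ℕ}
    {e : Tops P → ℕ → ℕ → P} (C : ∀ t : Tops P, Cp.Comp (i + 1) (t : P) (lo t) (hi t) (e t))
    (hS : ∀ t : Tops P, Shape (i + 1) (lo t) (hi t)) (B : RowB P (i + 1) t m x c β)
    (hm : 3 ≤ m) (hb1 : β = 1) : 0 < R5 i K Y V t := by
  classical
  have hn := h.nj
  have hi1 : 1 ≤ i := by omega
  rcases B.cases hn hm with hN | ⟨x', c', B', hB'⟩
  · obtain ⟨g1, g2⟩ := B.nat_zero hn hN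
    have := g2 (by omega)
    omega
  have hd : Dft m c' β := by
    rcases hB' with ⟨c0, c1, hb, h2 | h2⟩ | ⟨hb, c0, c1⟩
    · exact Or.inl ⟨c0, c1, hb, h2⟩
    · omega
    · exact Or.inr ⟨hb, c0, c1⟩
  rcases CB.shape2 hC h (by omega) C hS B' hm with ⟨g1, g2⟩ | ⟨a, L⟩
  · exact absurd hb1 g2
  · rcases late_class hT h (by omega) C hS B' hm L hd with ⟨hI, g3⟩ | ⟨hI, hm3, g1, g2, g3, g4⟩ |
      ⟨hm3, hb, c0, c1, hp, hr⟩
    · have := hI.1
      omega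
    · have := hI.1
      omega
    · subst hm3
      obtain ⟨f1, f2⟩ := B'.ends (by rw [hb]; norm_num)
      obtain ⟨h1, h2⟩ := hM.ring3 r i t x' c' β (lo t) (hi t) (e t) a h13 h B' (C t) (hS t) L hb
        c0 c1 f1 f2 hp hr
      obtain ⟨h3, h4, -⟩ := NJ.pay_ring hn hi1 R hY B' hb c0 (c1 1 le_rfl (by omega))
        (c1 2 (by omega) (by omega))
      have hs : Small (i + 1) (topOf : P → Tops P) t := by
        rcases B'.small hn.g.H hn.split with q | q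
        · exact q
        · have := q.2.1
          omega
      have h5 := q_nonneg (v3 (i + 1) t)
      unfold R5
      rw [NJ.Ut_small hn hi1 R hs, h3]
      unfold Qt
      linarith

/-- EVERY PART WITHOUT TWO STARS -/
theorem CB.q5_all (hC : HCCu P) (hT : HTail P) {lo hi : Tops P → ℕ → ℕ}
    {e : Tops P → ℕ → ℕ → P} (C : ∀ t : Tops P, Cp.Comp (i + 1) (t : P) (lo t) (hi t) (e t))
    (hS : ∀ t : Tops P, Shape (i + 1) (lo t) (hi t)) (t : Tops P)
    (h6 : ∀ (m : ℕ) (x : ℕ → P) (c : ℕ → ℤ) (β : ℤ),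
      RowB P (i + 1) t m x c β → ¬ Pat6 m c β) : Q5 i K Y V t := by
  classical
  have hn := h.nj
  have hi1 : 1 ≤ i := by omega
  have free : Q0 i K t → (PA (i + 1) K Y V t = 0 ∧ PC (i + 1) K Y V t = 0) →
      0 ≤ TT (i + 1) t → Q5 i K Y V t := fun q1 q2 q3 =>
    NJ.Q5_of_Q0 hn hi1 R hY h6 q1 (by rw [q2.1, q2.2]; linarith)
  have natc : ∀ (m : ℕ) (x : ℕ → P) (c : ℕ → ℤ) (β : ℤ), RowB P (i + 1) t m x c β → β = 0 →
      (∀ k, k < m → c k = 0) → Q5 i K Y V t := fun m x c β B hβ hc =>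
    free (Q0_of_Vt (hL.nat r i t m x c β hi1 h B hβ hc)) (NJ.pay_nat hn hi1 R hY B hc hβ)
      (hM.nat r i t m x c β h13 h B hβ hc)
  have clo : ∀ (m : ℕ) (x : ℕ → P) (c : ℕ → ℤ) (β : ℤ), RowB P (i + 1) t m x c β → 3 ≤ m →
      IsDL m c β → (uc (x 0)).card = 2 → Q5 i K Y V t := by
    intro m x c β B hm hI hu
    obtain ⟨q1, q2⟩ := NJ.pay_dl hn hi1 R hY B hm hI
    unfold Q5 R5
    rw [q1, q2]
    rcases hM.closed r i K psi t m x c β (lo t) (hi t) (e t) h13 h R B (C t) (hS t) hm hI hu with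
      h1 | ⟨h1, h2⟩
    · left
      linarith
    · right
      exact ⟨by linarith, h2⟩
  obtain ⟨m, x, c, β, B⟩ := NJ.rowB hn (by omega) t
  rcases Nat.lt_or_ge m 3 with hm | hm
  · by_cases hnat : β = 0 ∧ ∀ k, k < m → c k = 0
    · exact natc m x c β B hnat.1 hnat.2
    have hm2 : m = 2 := by
      rcases B.pat with ⟨p1, p2⟩ | ⟨p0, -⟩ | ⟨p0, -⟩ | ⟨p0, -⟩ | ⟨p0, -⟩ | ⟨p0, -⟩ | ⟨p0, -⟩ | ⟨p0, -⟩
      · exact absurd ⟨p1, p2⟩ hnat
      all_goals omega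
    subst hm2
    refine NJ.Q5_of_Q0 hn hi1 R hY h6
      (hL.two r i K psi t x c β lo hi e (by omega) (by omega) hC hT h R C hS B hnat) ?_
    exact hM.two r i K psi Y V t x c β h13 h R hY B hnat
  rcases B.cases hn hm with hN | ⟨x', c', B', hB'⟩
  · obtain ⟨g1, g2⟩ := B.nat_zero hn hN
    exact natc m x c β B (g2 (by omega)) g1
  have hd : Dft m c' β := by
    rcases hB' with ⟨c0, c1, hb, h2 | h2⟩ | ⟨hb, c0, c1⟩
    · exact Or.inl ⟨c0, c1, hb, h2⟩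
    · exact absurd h2 (h6 m x' c' β B')
    · exact Or.inr ⟨hb, c0, c1⟩
  rcases CB.shape2 hC h (by omega) C hS B' hm with ⟨g1, g2⟩ | ⟨a, L⟩
  · rcases hd with ⟨c0, c1, hb, h2⟩ | ⟨hb, -⟩
    · have hI : IsDL m c' β := ⟨hb, c0, c1, h2⟩
      rcases g1 c0 with g3 | ⟨S, g4, g5⟩
      · exact clo m x' c' β B' hm hI g3
      · exfalso
        omega
    · exact absurd hb g2
  · rcases late_class hT h (by omega) C hS B' hm L hd with ⟨hI, g3⟩ | ⟨hI, hm3, g1, g2, g3, g4⟩ |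
      ⟨hm3, hb, c0, c1, hp, hr⟩
    · exact clo m x' c' β B' hm hI g3
    · subst hm3
      exact free (hL.open3 r i K psi t x' c' β (lo t) (hi t) (e t) a (by omega) (by omega) h R B'
        (C t) (hS t) L hI g1 g2 g3 g4) (NJ.pay_dl hn hi1 R hY B' hm hI)
        (hM.open3 r i t x' c' β (lo t) (hi t) (e t) a h13 h B' (C t) (hS t) L hI g1 g2 g3 g4)
    · left
      exact (CB.ring5_pos hL hM h h13 R hY hC hT C hS B' hm hb).le

end main

/-- STEP 0 at the level 13: no component with two stars -/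
theorem no6_thirteen (hC : HCCu P) (hT : HTail P) (hL : Leaves0 P) (hM : Leaves13 P) :
    ∀ r j, j = 13 → CB P r j → No6 P j := by
  classical
  intro r j h13 h t m x c β B hp
  obtain ⟨i, rfl⟩ : ∃ i, j = i + 1 := ⟨j - 1, by omega⟩
  have hi1 : 1 ≤ i := by omega
  have hn := h.nj
  obtain ⟨lo, hi, e, C, hS⟩ := hsh (P := P) r (i + 1) hn.g
  obtain ⟨K, psi, R⟩ := exists_red P (i + 1)
  obtain ⟨Y, V, hY⟩ := exists_YW P (i + 1)
  have six : ∀ (t : Tops P) (m : ℕ) (x : ℕ → P) (c : ℕ → ℤ) (β : ℤ),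
      RowB P (i + 1) t m x c β → Pat6 m c β →
      0 < S5 i K Y V t ∨ (0 ≤ S5 i K Y V t ∧ v3 (i + 1) t ≠ 0) := by
    intro t m x c β B hp
    have h2 := NJ.S5_ge hn hi1 R hY t
    rcases hM.six r i K psi Y V t m x c β lo hi e h13 hC hT h R hY C hS B hp with
      h1 | ⟨h1, h3⟩ | ⟨h1, h3⟩
    · left
      linarith
    · right
      exact ⟨by linarith, h3⟩
    · left
      have := NJ.S5_light hn hi1 R hY h3
      linarith
  have hpos : ∀ t : Tops P, 0 ≤ S5 i K Y V t := by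
    intro t
    by_cases h6 : ∀ (m : ℕ) (x : ℕ → P) (c : ℕ → ℤ) (β : ℤ),
        RowB P (i + 1) t m x c β → ¬ Pat6 m c β
    · exact NJ.Q5_nonneg hn hi1 R hY (CB.q5_all hL hM h h13 R hY hC hT C hS t h6)
    · push Not at h6
      obtain ⟨m, x, c, β, B, hp⟩ := h6
      rcases six t m x c β B hp with h1 | ⟨h1, -⟩
      · exact h1.le
      · exact h1
  have hz : ∀ t : Tops P, S5 i K Y V t = 0 := NJ.S5_zero hn hi1 R hY hpos
  -- no bad double
  have hbad : ∀ y : P, ¬ BadR P (i + 1) y := by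
    rintro y ⟨m', x', c', β', B', hm', hb', -⟩
    have h1 := CB.ring5_pos hL hM h h13 R hY hC hT C hS B' hm' hb'
    have h2 := NJ.S5_ge hn hi1 R hY (topOf y)
    have h3 := hz (topOf y)
    linarith
  rcases six t m x c β B hp with h1 | ⟨-, h1⟩
  · have := hz t
    linarith
  · have h2 := ((NJ.w3_zero (K := K) (psi := psi) hn (by omega) R
      (fun z y v _ _ hb => absurd hb (hbad y))).1 t).1
    exact h1 h2

end Pool.Agent.GaussPoset.EK
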